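import Mathlib

namespace Pool.Agent.Results.MP_91bf1e_al.Depends

open Filter

/-- The ball of radius `n` for the word length with respect to `X ∪ X⁻¹`. -/
def ball {G : Type} [Group G] (X : Finset G) (n : ℕ) : Set G :=
  {g | ∃ l : List G, l.length ≤ n ∧ (∀ x ∈ l, x ∈ X ∨ x⁻¹ ∈ X) ∧ l.prod = g}

/-- The `φ`-conjugacy class of `y`. -/
def cls {G : Type} [Group G] (φ : G →* G) (y : G) : Set G := {x | ∃ z, x = z * y * (φ z)⁻¹}

/-- The `φ`-twisted conjugacy ratio. -/
noncomputable def tcr {G : Type} [Group G] (X : Finset G) (φ : G →* G) : ℝ :=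
  limsup (fun n : ℕ => ((cls φ '' ball X n).ncard : ℝ) / (ball X n).ncard) atTop

open FreeGroup hiding map_mul map_inv map_one IsReduced norm

abbrev F := FreeGroup Bool
abbrev Z := Multiplicative (ZMod 2)
abbrev L := List (Bool × Bool)

/-- fourth powers -/
def ψ : F →* F := FreeGroup.lift fun x => of x ^ 4

def ex (l : L) : L := l.flatMap fun a => [a, a, a, a]

lemma mk_single (a : Bool × Bool) : (mk [a] : F) = if a.2 then of a.1 else (of a.1)⁻¹ := by
  obtain ⟨x, b⟩ := a
  cases b
  · simp [of, inv_mk, invRev]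
  · rfl

lemma psi_mk (l : L) : ψ (mk l) = mk (ex l) := by
  induction l with
  | nil => exact map_one ψ
  | cons a l ih =>
    have e1 : (mk (a :: l) : F) = mk [a] * mk l := by rw [mul_mk]; rfl
    have e2 : (mk (ex (a :: l)) : F) = mk [a] * mk [a] * mk [a] * mk [a] * mk (ex l) := by
      simp only [mul_mk]; rfl
    rw [e1, e2, map_mul, ih, mk_single]
    congr 1
    split_ifs <;> simp [ψ, pow_succ, mul_assoc]

lemma ex_red : ∀ l : L, FreeGroup.IsReduced l → FreeGroup.IsReduced (ex l)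
  | [], _ => FreeGroup.IsReduced.nil
  | [a], _ => by simp [ex, FreeGroup.IsReduced]
  | a :: b :: l, h => by
    have h1 := isReduced_cons_cons.1 h
    have h2 := ex_red (b :: l) h1.2
    change FreeGroup.IsReduced (a :: a :: a :: a :: b :: b :: b :: b :: ex l)
    change FreeGroup.IsReduced (b :: b :: b :: b :: ex l) at h2
    simp only [isReduced_cons_cons] at h2 ⊢
    exact ⟨fun _ => trivial, fun _ => trivial, fun _ => trivial, h1.1, h2⟩

lemma ex_len (l : L) : (ex l).length = 4 * l.length := by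
  induction l with
  | nil => rfl
  | cons a l ih => simp [ex] at ih ⊢; omega

lemma norm_red {l : L} (h : FreeGroup.IsReduced l) : FreeGroup.norm (mk l) = l.length := by
  rw [FreeGroup.norm, toWord_mk, h.reduce_eq]

lemma red_app {l m : L} (hl : FreeGroup.IsReduced l) (hm : FreeGroup.IsReduced m)
    (h : ∀ a ∈ l.getLast?, ∀ b ∈ m.head?, a.1 = b.1 → a.2 = b.2) : FreeGroup.IsReduced (l ++ m) :=
  List.IsChain.append hl hm h

/-- next letter -/
def nxt (w : L) (i : Bool) : Bool × Bool := (!(w.getLast?.getD (true, true)).1, i)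

def e (g : F) (i : Bool) : F := mk (g.toWord ++ [nxt g.toWord i])

lemma nxt_ne (w : L) (i : Bool) : ∀ a ∈ w.getLast?, a.1 ≠ (nxt w i).1 := by
  intro a ha
  simp [nxt, Option.mem_def.1 ha]

lemma e_red (g : F) (i : Bool) : FreeGroup.IsReduced (g.toWord ++ [nxt g.toWord i]) :=
  red_app isReduced_toWord FreeGroup.IsReduced.singleton fun a ha b hb h => by
    simp at hb; subst hb; exact absurd h (nxt_ne _ _ a ha)

lemma e_norm (g : F) (i : Bool) : FreeGroup.norm (e g i) = FreeGroup.norm g + 1 := by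
  rw [e, norm_red (e_red g i)]; simp [FreeGroup.norm]

lemma e_inj {g h : F} {i j : Bool} (H : e g i = e h j) : g = h ∧ i = j := by
  have h1 := congrArg toWord H
  rw [e, e, toWord_mk, toWord_mk, (e_red g i).reduce_eq, (e_red h j).reduce_eq] at h1
  have h2 := List.append_inj' h1 rfl
  refine ⟨toWord_injective h2.1, ?_⟩
  have := h2.2
  simp [nxt] at this
  exact this.2

lemma expand (g : F) (i : Bool) (z : F) :
    FreeGroup.norm (e g i) + 4 * FreeGroup.norm z ≤ FreeGroup.norm (e g i * ψ z) + 2 := by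
  have hz : FreeGroup.IsReduced (ex z.toWord) := ex_red _ isReduced_toWord
  have hl : (ex z.toWord).length = 4 * FreeGroup.norm z := ex_len _
  have e1 : ψ z = mk (ex z.toWord) := by rw [← psi_mk, mk_toWord]
  rw [e1, ← hl, e_norm]
  generalize z.toWord = l at hz
  cases l with
  | nil => show _ ≤ FreeGroup.norm (e g i * 1) + 2; rw [mul_one, e_norm]; simp [ex]
  | cons a l =>
    change FreeGroup.IsReduced (a :: a :: a :: a :: ex l) at hz
    change _ + (a :: a :: a :: a :: ex l).length ≤ FreeGroup.norm (e g i * mk (a :: a :: a :: a :: ex l)) + 2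
    set q := nxt g.toWord i with hq
    by_cases h : q.1 = a.1 → q.2 = a.2
    · rw [e, mul_mk, norm_red]
      · simp [FreeGroup.norm]; omega
      · refine red_app (e_red g i) hz fun x hx y hy => ?_
        simp at hx hy; subst hx hy; exact h
    · push Not at h
      have e2 : e g i * mk (a :: a :: a :: a :: ex l) = mk (g.toWord ++ (a :: a :: a :: ex l)) := by
        have e3 : (mk [q] : F) * mk [a] = 1 := by
          rw [mk_single, mk_single, h.1]
          have := h.2
          revert this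
          cases q.2 <;> cases a.2 <;> simp
        have e4 : (mk (a :: a :: a :: a :: ex l) : F) = mk [a] * mk (a :: a :: a :: ex l) := by
          rw [mul_mk]; rfl
        rw [e, ← hq, ← mul_mk, ← mul_mk, e4, mul_assoc, ← mul_assoc (mk [q]), e3, one_mul]
      rw [e2, norm_red]
      · simp [FreeGroup.norm]; omega
      · refine red_app isReduced_toWord (isReduced_cons_cons.1 hz).2 fun x hx y hy hxy => ?_
        simp at hy; subst hy
        exact absurd (hxy.trans h.1.symm) (nxt_ne _ _ x hx)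

lemma sep {g h z : F} (H : e h true = z * e g true * (ψ z)⁻¹) : g = h := by
  have h1 := expand h true z
  have h2 := expand g true z⁻¹
  have e1 : e h true * ψ z = z * e g true := by rw [H]; group
  have e2 : e g true * ψ z⁻¹ = z⁻¹ * e h true := by rw [H, map_inv]; group
  rw [e1] at h1; rw [e2] at h2
  have h3 := norm_mul_le z (e g true)
  have h4 := norm_mul_le z⁻¹ (e h true)
  rw [norm_inv_eq] at h2 h4
  have h5 : z = 1 := norm_eq_zero.1 (by omega)
  subst h5
  simp at H
  exact (e_inj H).1.symm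

def B (n : ℕ) : Set F := {g | FreeGroup.norm g ≤ n}

lemma B_fin (n : ℕ) : (B n).Finite :=
  ((List.finite_length_le (Bool × Bool) n).image mk).subset fun g hg => ⟨g.toWord, hg, mk_toWord⟩

lemma B_pos (n : ℕ) : 0 < (B n).ncard :=
  (Set.ncard_pos (B_fin n)).2 ⟨1, by simp [B]⟩

lemma B_two (n : ℕ) : 2 * (B n).ncard ≤ (B (n + 1)).ncard := by
  have h := Set.ncard_le_ncard_of_injOn (s := B n ×ˢ (Set.univ : Set Bool)) (t := B (n + 1))
    (fun p => e p.1 p.2) (fun p hp => by
      have : FreeGroup.norm p.1 ≤ n := hp.1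
      show FreeGroup.norm _ ≤ _
      rw [e_norm]; omega)
    (fun p _ q _ h => Prod.ext (e_inj h).1 (e_inj h).2) (B_fin _)
  rw [Set.ncard_prod] at h
  simpa [mul_comm] using h

lemma B_five (n : ℕ) : (B (n + 1)).ncard ≤ 5 * (B n).ncard := by
  have h : B (n + 1) ⊆ (fun p : F × Option (Bool × Bool) => p.1 * mk p.2.toList) ''
      (B n ×ˢ Set.univ) := by
    intro g hg
    have h1 : g.toWord.length ≤ n + 1 := hg
    rcases List.eq_nil_or_concat g.toWord with h2 | ⟨l, a, h2⟩
    · exact ⟨(1, none), ⟨by simp [B], trivial⟩, by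
        rw [toWord_eq_nil_iff.1 h2]; exact mul_one _⟩
    · refine ⟨(mk l, some a), ⟨norm_mk_le.trans ?_, trivial⟩, ?_⟩
      · rw [h2] at h1; simpa using h1
      · show mk l * mk [a] = g
        rw [mul_mk, ← List.concat_eq_append, ← h2, mk_toWord]
  have h2 := (Set.ncard_le_ncard h (((B_fin n).prod Set.finite_univ).image _)).trans
    (Set.ncard_image_le ((B_fin n).prod Set.finite_univ))
  rw [Set.ncard_prod] at h2
  simpa [mul_comm] using h2

abbrev G := F × Z

def φ : G →* G := (ψ.comp (MonoidHom.fst F Z)).prod 1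

def t : Z := Multiplicative.ofAdd 1

def X : Finset G := {(of true, 1), (of false, 1), (1, t)}
def Y : Finset G := {(of true, 1), (of false, 1), (1, t), (of true, t), (of false, t)}

lemma Z_cases (s : Z) : s = 1 ∨ s = t := by revert s; decide
lemma Z_inv (s : Z) : s⁻¹ = s := by revert s; decide

def cost (g : G) : ℕ := FreeGroup.norm g.1 + if g.2 = 1 then 0 else 1

lemma cost_mul (g h : G) : cost (g * h) ≤ cost g + cost h := by
  have h1 := norm_mul_le g.1 h.1
  unfold cost
  by_cases a : g.2 = 1 <;> by_cases b : h.2 = 1 <;> simp [a, b] <;> (try split_ifs) <;> omega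

lemma ball_le {A : Finset G} (c : G → ℕ) (c1 : c 1 = 0) (cm : ∀ g h, c (g * h) ≤ c g + c h)
    (cA : ∀ x, x ∈ A ∨ x⁻¹ ∈ A → c x ≤ 1) {n : ℕ} {g : G} (hg : g ∈ ball A n) : c g ≤ n := by
  obtain ⟨l, h1, h2, rfl⟩ := hg
  refine le_trans ?_ h1
  clear h1
  induction l with
  | nil => simp [c1]
  | cons a l ih =>
    have := cm a l.prod
    have := cA a (h2 a (by simp))
    have := ih fun x hx => h2 x (by simp [hx])
    simp; omega

lemma X_cost {n : ℕ} {g : G} (hg : g ∈ ball X n) : cost g ≤ n := by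
  have h0 : ∀ x ∈ X, cost x ≤ 1 := by
    intro x hx
    simp only [X, Finset.mem_insert, Finset.mem_singleton] at hx
    rcases hx with rfl | rfl | rfl <;> simp [cost]
    split_ifs <;> simp
  refine ball_le cost (by simp [cost]) cost_mul (fun x hx => hx.elim (h0 x) fun h => ?_) hg
  simpa [cost] using h0 _ h

lemma Y_norm {n : ℕ} {g : G} (hg : g ∈ ball Y n) : FreeGroup.norm g.1 ≤ n := by
  have h0 : ∀ x ∈ Y, FreeGroup.norm x.1 ≤ 1 := by
    intro x hx
    simp only [Y, Finset.mem_insert, Finset.mem_singleton] at hx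
    rcases hx with rfl | rfl | rfl | rfl | rfl <;> simp
  refine ball_le (fun g => FreeGroup.norm g.1) (by simp) (fun g h => norm_mul_le _ _)
    (fun x hx => hx.elim (h0 x) fun h => ?_) hg
  simpa using h0 _ h

lemma mk_prod (l : L) : (l.map fun a => ((mk [a], 1) : G)).prod = (mk l, 1) := by
  induction l with
  | nil => rfl
  | cons a l ih => rw [List.map_cons, List.prod_cons, ih, Prod.mk_mul_mk, mul_mk]; rfl

lemma gen_X (a : Bool × Bool) : ((mk [a], 1) : G) ∈ X ∨ ((mk [a], 1) : G)⁻¹ ∈ X := by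
  rw [mk_single]
  obtain ⟨x, b⟩ := a
  cases x <;> cases b <;> simp [X]

lemma gen_Y (a : Bool × Bool) (s : Z) : ((mk [a], s) : G) ∈ Y ∨ ((mk [a], s) : G)⁻¹ ∈ Y := by
  rw [mk_single]
  obtain ⟨x, b⟩ := a
  rcases Z_cases s with rfl | rfl <;> cases x <;> cases b <;> simp [Y, Z_inv]

lemma mem_X {n : ℕ} {g : F} (hg : g ∈ B n) : ((g, 1) : G) ∈ ball X n :=
  ⟨g.toWord.map fun a => ((mk [a], 1) : G), by rw [List.length_map]; exact hg, fun x hx => by
    obtain ⟨a, _, rfl⟩ := List.mem_map.1 hx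
    exact gen_X a, by rw [mk_prod, mk_toWord]⟩

lemma mem_Y {n : ℕ} {g : F} (hg : g ∈ B (n + 1)) (s : Z) : ((g, s) : G) ∈ ball Y (n + 1) := by
  have h1 : g.toWord.length ≤ n + 1 := hg
  have h2 : mk g.toWord = g := mk_toWord
  generalize g.toWord = l at h1 h2
  subst h2
  cases l with
  | nil =>
    rcases Z_cases s with rfl | rfl
    · exact ⟨[], by simp, by simp, rfl⟩
    · exact ⟨[(1, t)], by simp, by simp [Y], by simp; rfl⟩
  | cons a l =>
    refine ⟨(mk [a], s) :: l.map fun a => ((mk [a], 1) : G), by simpa using h1, fun x hx => ?_, ?_⟩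
    · rcases List.mem_cons.1 hx with rfl | hx
      · exact gen_Y _ _
      · obtain ⟨a, _, rfl⟩ := List.mem_map.1 hx
        exact gen_Y a 1
    · rw [List.prod_cons, mk_prod, Prod.mk_mul_mk, mul_mk, mul_one]; rfl

lemma cls_eq {H : Type} [Group H] (f : H →* H) (z y : H) : cls f (z * y * (f z)⁻¹) = cls f y := by
  ext x
  constructor
  · rintro ⟨w, rfl⟩; exact ⟨w * z, by rw [map_mul]; group⟩
  · rintro ⟨w, rfl⟩; exact ⟨w * z⁻¹, by rw [map_mul, map_inv]; group⟩

lemma cls_fst (g : G) : cls φ g = cls φ (g.1, 1) := by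
  rw [← cls_eq φ (1, g.2) (g.1, 1)]
  congr 1
  ext <;> simp [φ]

def C (n : ℕ) : Set (Set G) := (fun g : F => cls φ (g, 1)) '' B n

lemma CX (n : ℕ) : cls φ '' ball X n = C n := by
  ext c
  constructor
  · rintro ⟨g, hg, rfl⟩
    exact ⟨g.1, le_trans (Nat.le_add_right _ _) (X_cost hg), (cls_fst g).symm⟩
  · rintro ⟨g, hg, rfl⟩; exact ⟨_, mem_X hg, rfl⟩

lemma ballY (n : ℕ) : ball Y (n + 1) = B (n + 1) ×ˢ Set.univ := by
  ext g
  exact ⟨fun h => ⟨Y_norm h, trivial⟩, fun h => mem_Y h.1 g.2⟩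

lemma CY (n : ℕ) : cls φ '' ball Y (n + 1) = C (n + 1) := by
  ext c
  constructor
  · rintro ⟨g, hg, rfl⟩
    exact ⟨g.1, Y_norm hg, (cls_fst g).symm⟩
  · rintro ⟨g, hg, rfl⟩; exact ⟨_, mem_Y hg 1, rfl⟩

lemma cardY (n : ℕ) : (ball Y (n + 1)).ncard = 2 * (B (n + 1)).ncard := by
  rw [ballY, Set.ncard_prod]; simp [mul_comm]

lemma subX (n : ℕ) : ball X (n + 1) ⊆
    (fun g => (g, (1 : Z))) '' B (n + 1) ∪ (fun g => (g, t)) '' B n := by
  rintro ⟨g, s⟩ hg
  have h := X_cost hg
  rcases Z_cases s with rfl | rfl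
  · exact Or.inl ⟨g, by simpa [cost, B] using h, rfl⟩
  · refine Or.inr ⟨g, ?_, rfl⟩
    have : t ≠ 1 := by decide
    simp [cost, this] at h
    exact h

lemma finX (n : ℕ) : (ball X (n + 1)).Finite :=
  (((B_fin _).image _).union ((B_fin _).image _)).subset (subX n)

lemma cardX (n : ℕ) : (ball X (n + 1)).ncard ≤ (B (n + 1)).ncard + (B n).ncard :=
  (Set.ncard_le_ncard (subX n) (((B_fin _).image _).union ((B_fin _).image _))).trans
    ((Set.ncard_union_le _ _).trans
      (add_le_add (Set.ncard_image_le (B_fin _)) (Set.ncard_image_le (B_fin _))))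

lemma cardX' (n : ℕ) : (B (n + 1)).ncard ≤ (ball X (n + 1)).ncard :=
  Set.ncard_le_ncard_of_injOn (fun g => (g, 1)) (fun _ h => mem_X h)
    (fun _ _ _ _ h => (Prod.mk.inj h).1) (finX n)

lemma C_le (n : ℕ) : (C n).ncard ≤ (B n).ncard := Set.ncard_image_le (B_fin _)

lemma C_ge (n : ℕ) : (B n).ncard ≤ (C (n + 1)).ncard := by
  refine Set.ncard_le_ncard_of_injOn (fun g => cls φ (e g true, 1)) (fun g hg => ⟨_, ?_, rfl⟩)
    (fun g _ h _ H => ?_) ((B_fin _).image _)
  · have : FreeGroup.norm g ≤ n := hg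
    show FreeGroup.norm _ ≤ _
    rw [e_norm]; omega
  · have h1 : ((e h true, 1) : G) ∈ cls φ (e g true, 1) := by
      have : cls φ (e g true, 1) = cls φ (e h true, 1) := H
      rw [this]; exact ⟨1, by simp⟩
    obtain ⟨z, hz⟩ := h1
    exact sep (z := z.1) (congrArg Prod.fst hz)

lemma gen : Subgroup.closure (X : Set G) = ⊤ := by
  rw [eq_top_iff]
  rintro ⟨g, s⟩ _
  have h1 : ((g, 1) : G) ∈ Subgroup.closure (X : Set G) := by
    rw [← mk_toWord (x := g), ← mk_prod]
    refine Subgroup.list_prod_mem _ fun x hx => ?_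
    obtain ⟨a, _, rfl⟩ := List.mem_map.1 hx
    rcases gen_X a with h | h
    · exact Subgroup.subset_closure h
    · exact (Subgroup.inv_mem_iff _).1 (Subgroup.subset_closure h)
  have h2 : ((1, t) : G) ∈ Subgroup.closure (X : Set G) := Subgroup.subset_closure (by simp [X])
  rcases Z_cases s with rfl | rfl
  · exact h1
  · simpa using Subgroup.mul_mem _ h1 h2

lemma lim (a b : ℕ → ℝ) (h0 : ∀ᶠ n in atTop, 1 / 10 ≤ b n ∧ 4 / 3 * b n ≤ a n ∧ a n ≤ 1) :
    limsup a atTop ≠ limsup b atTop := by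
  intro H
  have ha : IsBoundedUnder (· ≤ ·) atTop a := ⟨1, h0.mono fun n h => h.2.2⟩
  have hb : IsBoundedUnder (· ≤ ·) atTop b := ⟨1, h0.mono fun n h => by
    have := h.1; have := h.2.1; have := h.2.2; show b n ≤ 1; linarith⟩
  have hc : IsCoboundedUnder (· ≤ ·) atTop b :=
    isCoboundedUnder_le_of_eventually_le _ (x := 1 / 10) (h0.mono fun n h => h.1)
  have h1 : 1 / 10 ≤ limsup b atTop := le_limsup_of_frequently_le (h0.mono fun n h => h.1).frequently hb
  have h2 := frequently_lt_of_lt_limsup hc (show 7 / 8 * limsup b atTop < limsup b atTop by linarith)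
  have h3 : 7 / 6 * limsup b atTop ≤ limsup a atTop :=
    le_limsup_of_frequently_le ((h2.and_eventually h0).mono fun n h => by
      have := h.1; have := h.2.2.1; linarith) ha
  linarith

theorem result : ∃ (G : Type) (_ : Group G) (φ : G →* G) (X Y : Finset G),
    Subgroup.closure (X : Set G) = ⊤ ∧ Subgroup.closure (Y : Set G) = ⊤ ∧ tcr X φ ≠ tcr Y φ := by
  refine ⟨G, inferInstance, φ, X, Y, gen, ?_, lim _ _ ?_⟩
  · rw [eq_top_iff, ← gen]
    refine Subgroup.closure_mono fun x hx => ?_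
    simp only [X, Y, Finset.coe_insert, Finset.coe_singleton, Set.mem_insert_iff,
      Set.mem_singleton_iff] at hx ⊢
    tauto
  · rw [eventually_atTop]
    refine ⟨1, fun n hn => ?_⟩
    obtain ⟨n, rfl⟩ : ∃ m, n = m + 1 := ⟨n - 1, by omega⟩
    rw [CX, CY, cardY]
    have h1 : ((B n).ncard : ℝ) ≤ (C (n + 1)).ncard := by exact_mod_cast C_ge n
    have h2 : ((C (n + 1)).ncard : ℝ) ≤ (B (n + 1)).ncard := by exact_mod_cast C_le _
    have h3 : 2 * ((B n).ncard : ℝ) ≤ (B (n + 1)).ncard := by exact_mod_cast B_two n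
    have h4 : ((B (n + 1)).ncard : ℝ) ≤ 5 * (B n).ncard := by exact_mod_cast B_five n
    have h5 : ((ball X (n + 1)).ncard : ℝ) ≤ (B (n + 1)).ncard + (B n).ncard := by
      exact_mod_cast cardX n
    have h6 : ((B (n + 1)).ncard : ℝ) ≤ (ball X (n + 1)).ncard := by exact_mod_cast cardX' n
    have h7 : (0 : ℝ) < (B n).ncard := by exact_mod_cast B_pos n
    push_cast
    refine ⟨?_, ?_, ?_⟩
    · rw [le_div_iff₀ (by linarith)]; linarith
    · rw [← mul_div_assoc, div_le_div_iff₀ (by linarith) (by linarith)]; nlinarith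
    · rw [div_le_one (by linarith)]; linarith

end Pool.Agent.Results.MP_91bf1e_al.Depends
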